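import Pool.Agent.Q28.PV.Defs

/-!
# The kernel of the Albanese map: definitions
-/

open CategoryTheory AlgebraicGeometry

universe u v w

namespace Pool.Agent.Q28.AL

open Pool.Agent.H914 Pool.Agent.H914.VarClass Pool.Agent.H914.VarClass.Obj Pool.Agent.W492.BB
  Pool.Agent.W550.Corr Pool.Agent.TH133 Pool.Agent.Q28.PV

variable {k : Type u} [Field k] {𝒱 : VarClass k} {C : TheoryData.{u, v, 0} 𝒱 ℚ}
  {K : Type w} [Field K] (H : WeilTheoryData.{u, v, w} C K)

/-- The class `z` lies in `F^2(X)`, the kernel of the Albanese map on the group `CH_0(X)_0` of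
zero-cycles of degree zero, with rational coefficients: all the divisors on the products `X × D`
map it to zero in `CH^1(D)`. (Take for `D` the Picard variety of `X` and the Poincare divisor.) -/
def AlbKernel (X : 𝒱.Obj) (z : C.A X) : Prop :=
  HomTriv H X X.dim z ∧ ∀ (D : 𝒱.Obj) (α : C.A (X.prod D)), C.Deg 1 α → C.act α z = 0

/-- Well-known facts on smooth projective varieties over an algebraically closed field and the class
`Ab` of abelian varieties:
* (`moving`) zero-cycles of degree zero are algebraically trivial: their support lies on a curve;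
* (`points`) the zero-cycles on `X × Y` are sums of cycles `x × y`;
* (`picard`) `Pic^0(T × D) = Pic^0(T) × Pic^0(D)`;
* (`poincare`) Poincare reducibility for the kernel of the homomorphism from the Jacobian of the
  curve `T` to the Albanese variety of `X` given by `Γ ∈ CH^(dim X)(T × X)`;
* (`lefschetz`) elements of `F^2(X)` are push-forwards from surfaces: their support lies on a smooth
  surface in (a product with a projective space of) `X` with the same Albanese variety;
* (`prod`) products of abelian varieties are abelian varieties;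
* (`pontryagin`) for an abelian variety `A` with addition `μ`, `F^2(A)` is spanned by the Pontryagin
  products of zero-cycles of degree zero (Bloch);
* (`jacobian`) a zero-cycle `a` of degree zero on the curve `T` is the image of `j_* a`, for a map
  `j` from `T` to its Jacobian `J`, under a divisor `p` on `J × T`. -/
structure Facts (Ab : 𝒱.Obj → Prop) : Prop where
  moving : ∀ (X : 𝒱.Obj) (z : C.A X), HomTriv H X X.dim z → AlgTriv H X X.dim z
  points : ∀ (X Y : 𝒱.Obj) (z : C.A (X.prod Y)), C.Deg (X.prod Y).dim z →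
    z ∈ Submodule.span ℚ {g | ∃ (x : C.A X) (y : C.A Y), C.Deg X.dim x ∧ C.Deg Y.dim y ∧
      g = C.ext x y}
  picard : ∀ (T D : 𝒱.Obj) (δ : C.A (T.prod D)), T.dim = 1 → HomTriv H (T.prod D) 1 δ →
    ∃ (b : C.A T) (c : C.A D), C.Deg 1 b ∧ C.Deg 1 c ∧ δ = C.ext b 1 + C.ext 1 c
  poincare : ∀ (T X : 𝒱.Obj) (Γ : C.A (T.prod X)), T.dim = 1 → C.Deg X.dim Γ →
    ∃ e : C.A (T.prod T), C.Deg 1 e ∧ H.cl (C.comp e Γ) = 0 ∧
      ∀ a : C.A T, HomTriv H T 1 a → AlbKernel H X (C.act Γ a) → C.act e a = a
  lefschetz : ∀ (X : 𝒱.Obj) (z : C.A X), AlbKernel H X z →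
    ∃ (S : 𝒱.Obj) (f : S ⟶ X) (w : C.A S), S.dim = 2 ∧ AlbKernel H S w ∧ z = C.down f w
  prod : ∀ A A' : 𝒱.Obj, Ab A → Ab A' → Ab (A.prod A')
  pontryagin : ∀ A : 𝒱.Obj, Ab A → ∃ μ : A.prod A ⟶ A, ∀ z : C.A A, AlbKernel H A z →
    z ∈ Submodule.span ℚ {g | ∃ x y : C.A A, HomTriv H A A.dim x ∧ HomTriv H A A.dim y ∧
      g = C.down μ (C.ext x y)}
  jacobian : ∀ T : 𝒱.Obj, T.dim = 1 → ∃ (J : 𝒱.Obj) (j : T ⟶ J) (p : C.A (J.prod T)), Ab J ∧
    C.Deg 1 p ∧ ∀ a : C.A T, HomTriv H T 1 a → C.act p (C.down j a) = a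

end Pool.Agent.Q28.AL
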