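import Pool.Agent.Q28.PV.Basic
import Pool.Agent.Y148.BB.Curve
import Pool.Agent.Q28.AL.Defs

/-!
# The kernel of the Albanese map: the theorem
-/

open CategoryTheory AlgebraicGeometry

universe u v w

namespace Pool.Agent.Q28.AL

set_option linter.unusedSectionVars false

open Pool.Agent.H914 Pool.Agent.H914.VarClass Pool.Agent.H914.VarClass.Obj Pool.Agent.W492.BB
  Pool.Agent.W550.Corr Pool.Agent.TH133 Pool.Agent.Q28.PV

variable {k : Type u} [Field k] {𝒱 : VarClass k} {C : TheoryData.{u, v, 0} 𝒱 ℚ} [IsChowProj C]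
  {K : Type w} [Field K] {H : WeilTheoryData.{u, v, w} C K} [IsWeilProj H] {Ab : 𝒱.Obj → Prop}
  {X Y T S : 𝒱.Obj}

lemma act_push (f : X ⟶ Y) (z : C.A X) : C.act (C.graph f) z = C.push f z := C.act_graph f z

lemma graph_mem (f : X ⟶ Y) : C.graph f ∈ C.gr (X.prod Y) Y.dim := by
  have h := C.push_mem (Obj.lift (𝟙 X) f) (C.one_mem X)
  have e1 : (0 : ℤ) + 1 * (((X.prod Y).dim : ℤ) - (X.dim : ℤ)) = Y.dim := by
    rw [dim_prod]; push_cast; ring
  rwa [e1] at h

/-- The Albanese kernel is stable under correspondences of degree zero. -/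
lemma AlbKernel.act {z : C.A X} (hz : AlbKernel H X z) {Γ : C.A (X.prod Y)} (hΓ : C.Deg Y.dim Γ) :
    AlbKernel H Y (C.act Γ z) := by
  refine ⟨hz.1.act ?_, fun D α hα => ?_⟩
  · have e : (X.dim : ℤ) + Y.dim - X.dim = Y.dim := by ring
    rw [e]; exact hΓ
  · rw [← C.act_comp]
    refine hz.2 D _ ?_
    have h1 : Γ ∈ C.gr (X.prod Y) ((X.dim : ℤ) + (Y.dim - X.dim)) := by
      have e : (X.dim : ℤ) + (Y.dim - X.dim) = Y.dim := by ring
      rw [e]; exact hΓ
    have h2 : α ∈ C.gr (Y.prod D) ((Y.dim : ℤ) + (1 - Y.dim)) := by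
      have e : (Y.dim : ℤ) + (1 - Y.dim) = 1 := by ring
      rw [e]; exact hα
    have h3 := comp_mem C h1 h2
    have e : (X.dim : ℤ) + (Y.dim - X.dim + (1 - Y.dim)) = 1 := by ring
    rw [e] at h3; exact h3

lemma AlbKernel.push {z : C.A X} (hz : AlbKernel H X z) (f : X ⟶ Y) :
    AlbKernel H Y (C.push f z) := by
  rw [← act_push]; exact hz.act (graph_mem f)

/-- Homologically trivial correspondences map Jacobians to the Albanese kernel. -/
lemma albKernel_of_doubly (hF : Facts H Ab) {z : C.A X} (hz : DoublyTriv H X X.dim z) :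
    AlbKernel H X z := by
  obtain ⟨T, Γ, a, hT, hΓ, ha, rfl⟩ := hz
  refine ⟨ha.act (curve_deg hT hΓ.1), fun D α hα => ?_⟩
  rw [← C.act_comp]
  have h1 : C.comp Γ α ∈ C.gr (T.prod D) 1 := by
    have h1 : Γ ∈ C.gr (T.prod X) ((T.dim : ℤ) + (X.dim - T.dim)) := by
      have e : (T.dim : ℤ) + (X.dim - T.dim) = X.dim := by ring
      rw [e]; exact hΓ.1
    have h2 : α ∈ C.gr (X.prod D) ((X.dim : ℤ) + (1 - X.dim)) := by
      have e : (X.dim : ℤ) + (1 - X.dim) = 1 := by ring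
      rw [e]; exact hα
    have h3 := comp_mem C h1 h2
    have e : (T.dim : ℤ) + (X.dim - T.dim + (1 - X.dim)) = 1 := by ring
    rw [e] at h3; exact h3
  obtain ⟨b, c, hb, hc, hδ⟩ := hF.picard T D _ hT ⟨by exact_mod_cast h1, cl_comp_zero hΓ.2 α⟩
  rw [hδ, C.act_add]
  have h2 : C.act (C.ext b (1 : C.A D)) a = 0 := by
    have h3 : b * a ∈ C.gr T (1 + 1) := C.mul_mem hb (by exact_mod_cast ha.1)
    exact act_ext_zero_of_lt h3 (by rw [hT]; norm_num)
  have h3 : C.act (C.ext (1 : C.A T) c) a = 0 := by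
    have h4 : HasDegree C ((1 : C.A T) * a) 0 := by
      rw [one_mul]
      refine hasDegree_zero_of_cl H ?_ ha.2
      rw [hT]; exact ha.1
    rw [act_ext' h4, zero_smul]
  rw [h2, h3, add_zero]

lemma doubly_of_albKernel (hF : Facts H Ab) {z : C.A X} (hz : AlbKernel H X z) :
    DoublyTriv H X X.dim z := by
  obtain ⟨T, Γ, a, hT, hΓ, ha, rfl⟩ := hF.moving X z hz.1
  obtain ⟨e, he, hcl, hker⟩ := hF.poincare T X Γ hT hΓ
  have hae := hker a ha hz
  refine ⟨T, C.comp e Γ, a, hT, ⟨?_, hcl⟩, ha, ?_⟩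
  · exact curve_deg' hT (comp_deg (curve_deg (j := 1) hT (by simpa using he)) (curve_deg hT hΓ))
  · rw [C.act_comp, hae]

theorem albKernel_iff (hF : Facts H Ab) (X : 𝒱.Obj) (z : C.A X) :
    AlbKernel H X z ↔ DoublyTriv H X X.dim z :=
  ⟨doubly_of_albKernel hF, albKernel_of_doubly hF⟩

/-- Products of homologically trivial and of algebraically trivial classes. -/
lemma doubly_mul {i j : ℕ} {x y : C.A X} (hx : HomTriv H X i x) (hy : AlgTriv H X j y) :
    DoublyTriv H X (i + j) (x * y) := by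
  obtain ⟨T, Γ, a, hT, hΓ, ha, rfl⟩ := hy
  refine ⟨T, Γ * C.pull (snd T X) x, a, hT, ⟨?_, ?_⟩, ha, ?_⟩
  · have h := C.mul_mem hΓ (C.pull_mem (snd T X) hx.1)
    have e : ((i + j : ℕ) : ℤ) = j + i := by push_cast; ring
    rw [e]; exact h
  · rw [map_mul, H.cl_pull, hx.2, map_zero, mul_zero]
  · rw [mul_act, C.act_apply, TheoryData.ext, mul_assoc, ch_comm C (C.pull (snd T X) x)]

lemma albKernel_mul (hF : Facts H Ab) {i j : ℕ} (hij : i + j = X.dim) {x y : C.A X}
    (hx : HomTriv H X i x) (hy : AlgTriv H X j y) : AlbKernel H X (x * y) := by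
  have h := doubly_mul hx hy
  rw [hij] at h
  exact albKernel_of_doubly hF h

/-- The pull-back of a divisor of degree zero. -/
lemma algTriv_fst (hT : T.dim = 1) {a : C.A T} (ha : HomTriv H T 1 a) (X : 𝒱.Obj) :
    AlgTriv H (T.prod X) 1 (C.pull (fst T X) a) := by
  refine ⟨T, C.cograph (fst T X), a, hT, ?_, ha, ?_⟩
  · have := cograph_mem (C := C) (fst T X)
    rw [hT] at this
    exact_mod_cast this
  · rw [C.act_cograph]

lemma algPull {j : ℕ} {y : C.A Y} (hy : AlgTriv H Y j y) (f : X ⟶ Y) :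
    AlgTriv H X j (C.pull f y) := by
  rw [← C.act_cograph f y]
  refine AlgTriv.act ?_ hy
  have e : (Y.dim : ℤ) + j - j = Y.dim := by ring
  rw [e]; exact cograph_mem f

lemma homPull {j : ℕ} {y : C.A Y} (hy : HomTriv H Y j y) (f : X ⟶ Y) :
    HomTriv H X j (C.pull f y) :=
  ⟨C.pull_mem _ hy.1, by rw [H.cl_pull, hy.2, map_zero]⟩

theorem threefolds (hF : Facts H Ab) (X : 𝒱.Obj) (z : C.A X) :
    AlbKernel H X z ↔ ∃ (Y : 𝒱.Obj) (h : Y ⟶ X) (x y : C.A Y), Y.dim = 3 ∧ HomTriv H Y 2 x ∧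
      AlgTriv H Y 1 y ∧ z = C.down h (C.mul x y) := by
  constructor
  · intro hz
    obtain ⟨S, f, w, hS, hw, rfl⟩ := hF.lefschetz X z hz
    obtain ⟨T, Γ, a, hT, hΓ, ha, rfl⟩ := doubly_of_albKernel hF hw
    rw [hS] at hΓ
    refine ⟨T.prod S, snd T S ≫ f, Γ, C.pull (fst T S) a, by rw [dim_prod]; omega, hΓ,
      algTriv_fst hT ha S, ?_⟩
    have h1 : C.push (snd T S ≫ f) (Γ * C.pull (fst T S) a) =
        C.push f (C.push (snd T S) (Γ * C.pull (fst T S) a)) := C.push_comp _ _ _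
    rw [C.act_apply]
    exact h1.symm
  · rintro ⟨Y, h, x, y, hY, hx, hy, rfl⟩
    exact (albKernel_mul hF (by omega) hx hy).push h

theorem conj_tfae (hF : Facts H Ab) :
    [∀ (X : 𝒱.Obj) (z : C.A X), AlbKernel H X z → z = 0,
      ∀ (S : 𝒱.Obj) (z : C.A S), S.dim = 2 → AlbKernel H S z → z = 0,
      ∀ (Y : 𝒱.Obj) (x y : C.A Y), Y.dim = 3 → HomTriv H Y 2 x → AlgTriv H Y 1 y →
        C.mul x y = 0,
      ∀ (S T : 𝒱.Obj) (Γ : C.A (T.prod S)) (a : C.A T), T.dim = 1 → S.dim = 2 →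
        HomTriv H (T.prod S) 2 Γ → HomTriv H T 1 a → C.act Γ a = 0,
      ∀ (X : 𝒱.Obj) (i j : ℕ) (x y : C.A X), i + j = X.dim → HomTriv H X i x →
        AlgTriv H X j y → C.mul x y = 0].TFAE := by
  tfae_have 1 → 5 := fun h X i j x y hij hx hy => h X _ (albKernel_mul hF hij hx hy)
  tfae_have 5 → 3 := fun h Y x y hY hx hy => h Y 2 1 x y (by omega) hx hy
  tfae_have 3 → 4 := by
    intro h S T Γ a hT hS hΓ ha
    rw [C.act_apply]
    have h1 : Γ * C.pull (fst T S) a = 0 :=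
      h (T.prod S) Γ _ (by rw [dim_prod]; omega) hΓ (algTriv_fst hT ha S)
    rw [h1, map_zero]
  tfae_have 4 → 2 := by
    intro h S z hS hz
    obtain ⟨T, Γ, a, hT, hΓ, ha, rfl⟩ := doubly_of_albKernel hF hz
    rw [hS] at hΓ
    exact h S T Γ a hT hS hΓ ha
  tfae_have 2 → 1 := by
    intro h X z hz
    obtain ⟨S, f, w, hS, hw, rfl⟩ := hF.lefschetz X z hz
    rw [h S w hS hw]
    exact map_zero (C.push f)
  tfae_finish

section curves

/-- The statement `a × a' = 0` on products of two curves. -/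
def ExtZero (H : WeilTheoryData.{u, v, w} C K) : Prop :=
  ∀ (T T' : 𝒱.Obj) (a : C.A T) (a' : C.A T'), T.dim = 1 → T'.dim = 1 → HomTriv H T 1 a →
    HomTriv H T' 1 a' → C.ext a a' = 0

lemma ext_alg_zero (h : ExtZero H) {i j : ℕ} {x : C.A X} {y : C.A Y} (hx : AlgTriv H X i x)
    (hy : AlgTriv H Y j y) : C.ext x y = 0 := by
  obtain ⟨T, Γ, a, hT, hΓ, ha, rfl⟩ := hx
  obtain ⟨T', Γ', a', hT', hΓ', ha', rfl⟩ := hy
  have h1 : C.act (tens C Γ Γ') (C.ext a a') = C.ext (C.act Γ a) (C.act Γ' a') := by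
    apply act_tens_ext
    intro V f c
    exact ch_comm C _ _
  rw [← h1, h T T' a a' hT hT' ha ha', C.act_map_zero]

lemma pull_diag (x y : C.A X) : C.pull (Obj.lift (𝟙 X) (𝟙 X)) (C.ext x y) = x * y := by
  rw [TheoryData.ext, map_mul, ← C.pull_comp, ← C.pull_comp, lift_fst, lift_snd, C.pull_id,
    C.pull_id]

lemma mul_alg_zero (h : ExtZero H) {i j : ℕ} {x y : C.A X} (hx : AlgTriv H X i x)
    (hy : AlgTriv H X j y) : x * y = 0 := by
  rw [← pull_diag, ext_alg_zero h hx hy, map_zero]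

lemma push_fst_ext {x : C.A X} {y : C.A Y} {q : ℚ} (hy : HasDegree C y q) :
    C.push (fst X Y) (C.ext x y) = q • x := by
  rw [TheoryData.ext, ch_comm C, C.proj_right, (hy X).2, smul_mul_assoc, one_mul]

lemma push_snd_ext {x : C.A X} {y : C.A Y} {q : ℚ} (hx : HasDegree C x q) :
    C.push (snd X Y) (C.ext x y) = q • y := by
  rw [TheoryData.ext, C.proj_right, (hx Y).1, smul_mul_assoc, one_mul]

lemma ext_smul_left (q : ℚ) (x : C.A X) (y : C.A Y) : C.ext (q • x) y = q • C.ext x y := by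
  rw [TheoryData.ext, map_smul, smul_mul_assoc]; rfl

lemma ext_smul_right (q : ℚ) (x : C.A X) (y : C.A Y) : C.ext x (q • y) = q • C.ext x y := by
  rw [TheoryData.ext, map_smul, mul_smul_comm]; rfl

lemma ext_sub_left (x x' : C.A X) (y : C.A Y) : C.ext (x - x') y = C.ext x y - C.ext x' y := by
  rw [TheoryData.ext, map_sub, sub_mul]; rfl

lemma ext_sub_right (x : C.A X) (y y' : C.A Y) : C.ext x (y - y') = C.ext x y - C.ext x y' := by
  rw [TheoryData.ext, map_sub, mul_sub]; rfl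

lemma ext_add_left (x x' : C.A X) (y : C.A Y) : C.ext (x + x') y = C.ext x y + C.ext x' y := by
  rw [TheoryData.ext, map_add, add_mul]; rfl

lemma ext_add_right (x : C.A X) (y y' : C.A Y) : C.ext x (y + y') = C.ext x y + C.ext x y' := by
  rw [TheoryData.ext, map_add, mul_add]; rfl

/-- Zero-cycles of degree zero are homologically trivial. -/
lemma homTriv_of_degree {z : C.A X} (hz : C.Deg X.dim z) (h : HasDegree C z 0) :
    HomTriv H X X.dim z := by
  obtain ⟨o, ho, hd⟩ := exists_point (C := C) X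
  refine ⟨hz, ?_⟩
  have h1 := Pool.Agent.Y148.BB.act_e2_two H ho hd (H.cl_mem hz)
  rw [← cl_act, act_ext' (q := 0) (by rwa [one_mul]), zero_smul, map_zero] at h1
  exact h1.symm

lemma homTriv_sub {z o : C.A X} {q : ℚ} (hz : C.Deg X.dim z) (hq : HasDegree C z q)
    (ho : C.Deg X.dim o) (hd : HasDegree C o 1) : HomTriv H X X.dim (z - q • o) := by
  refine homTriv_of_degree (Submodule.sub_mem _ hz (Submodule.smul_mem _ q ho)) fun Z => ?_
  constructor
  · rw [map_sub, map_sub, map_smul, map_smul, (hq Z).1, (hd Z).1, one_smul, sub_self, zero_smul]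
  · rw [map_sub, map_sub, map_smul, map_smul, (hq Z).2, (hd Z).2, one_smul, sub_self, zero_smul]

/-- The part of a zero-cycle on a product of two curves which is not determined by its images on
the factors vanishes. -/
lemma prod_formula (h : ExtZero H) {T T' : 𝒱.Obj} (hT : T.dim = 1) (hT' : T'.dim = 1) {o : C.A T}
    {o' : C.A T'} (ho : C.Deg T.dim o) (hd : HasDegree C o 1) (ho' : C.Deg T'.dim o')
    (hd' : HasDegree C o' 1) {z : C.A (T.prod T')}
    (hz : z ∈ Submodule.span ℚ {g | ∃ (x : C.A T) (y : C.A T'), C.Deg T.dim x ∧ C.Deg T'.dim y ∧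
      g = C.ext x y}) :
    z = C.ext (C.push (fst T T') z) o' + C.ext o (C.push (snd T T') z) -
      C.ext (C.act (C.ext 1 o) (C.push (fst T T') z)) o' := by
  induction hz using Submodule.span_induction with
  | mem z hz =>
    obtain ⟨x, y, hx, hy, rfl⟩ := hz
    obtain ⟨q, hq⟩ := exists_hasDegree (C := C) hx
    obtain ⟨r, hr⟩ := exists_hasDegree (C := C) hy
    have h1 : C.ext (x - q • o) (y - r • o') = 0 := by
      have h2 := homTriv_sub (H := H) hx hq ho hd
      have h3 := homTriv_sub (H := H) hy hr ho' hd'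
      rw [hT] at h2
      rw [hT'] at h3
      exact h T T' _ _ hT hT' h2 h3
    rw [push_fst_ext hr, push_snd_ext hq, ext_smul_left, ext_smul_right, act_map_smul,
      act_ext' (q := q) (by rwa [one_mul]), ext_smul_left, ext_smul_left]
    rw [ext_sub_left, ext_sub_right, ext_sub_right, ext_smul_left, ext_smul_left, ext_smul_right,
      ext_smul_right] at h1
    rw [← sub_eq_zero, ← h1]
    module
  | zero => simp only [map_zero, C.act_map_zero, TheoryData.ext, zero_mul, mul_zero, add_zero,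
      sub_zero]
  | add x y _ _ hx hy =>
    rw [map_add, map_add, act_map_add, ext_add_left, ext_add_left, ext_add_right]
    nth_rewrite 1 [hx]
    nth_rewrite 1 [hy]
    abel
  | smul a x _ hx =>
    rw [map_smul, map_smul, act_map_smul, ext_smul_left, ext_smul_left, ext_smul_right]
    nth_rewrite 1 [hx]
    rw [smul_sub, smul_add]

lemma curve_kernel {T : 𝒱.Obj} (hT : T.dim = 1) {z : C.A T} (hz : AlbKernel H T z) : z = 0 := by
  have h1 : C.Deg 1 (dg C T) := by
    have := dg_mem C T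
    rw [hT] at this
    exact_mod_cast this
  have h2 := hz.2 T (dg C T) h1
  rwa [act_dg] at h2

lemma kernel_of_ext (hF : Facts H Ab) (h : ExtZero H) {T T' : 𝒱.Obj} (hT : T.dim = 1)
    (hT' : T'.dim = 1) {z : C.A (T.prod T')} (hz : AlbKernel H (T.prod T') z) : z = 0 := by
  obtain ⟨o, ho, hd⟩ := exists_point (C := C) T
  obtain ⟨o', ho', hd'⟩ := exists_point (C := C) T'
  have h1 := prod_formula h hT hT' ho hd ho' hd' (hF.points T T' z hz.1.1)
  rw [curve_kernel hT (hz.push (fst T T')), curve_kernel hT' (hz.push (snd T T')), C.act_map_zero] at h1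
  rw [h1]
  simp only [TheoryData.ext, map_zero, zero_mul, mul_zero, add_zero, sub_zero]

lemma kernel_of_ab (hF : Facts H Ab) (h : ExtZero H) {A : 𝒱.Obj} (hA : Ab A) {z : C.A A}
    (hz : AlbKernel H A z) : z = 0 := by
  obtain ⟨μ, hμ⟩ := hF.pontryagin A hA
  have h1 := hμ z hz
  have h2 : Submodule.span ℚ {g | ∃ x y : C.A A, HomTriv H A A.dim x ∧ HomTriv H A A.dim y ∧
      g = C.down μ (C.ext x y)} ≤ ⊥ := by
    refine Submodule.span_le.2 ?_
    rintro g ⟨x, y, hx, hy, rfl⟩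
    rw [ext_alg_zero h (hF.moving A x hx) (hF.moving A y hy)]
    exact map_zero (C.push μ)
  exact (Submodule.mem_bot _).1 (h2 h1)

theorem curves_tfae (hF : Facts H Ab) :
    [∀ (T T' : 𝒱.Obj) (z : C.A (T.prod T')), T.dim = 1 → T'.dim = 1 →
        AlbKernel H (T.prod T') z → z = 0,
      ∀ (A : 𝒱.Obj) (z : C.A A), Ab A → AlbKernel H A z → z = 0,
      ExtZero H,
      ∀ (X : 𝒱.Obj) (i j : ℕ) (x y : C.A X), AlgTriv H X i x → AlgTriv H X j y →
        C.mul x y = 0].TFAE := by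
  tfae_have 3 → 4 := fun h X i j x y hx hy => mul_alg_zero h hx hy
  tfae_have 3 → 1 := fun h T T' z hT hT' hz => kernel_of_ext hF h hT hT' hz
  tfae_have 3 → 2 := fun h A z hA hz => kernel_of_ab hF h hA hz
  tfae_have 4 → 3 := by
    intro h T T' a a' hT hT' ha ha'
    have h2 : AlgTriv H T' 1 a' := by
      have := hF.moving T' a' (by rw [hT']; exact ha')
      rwa [hT'] at this
    exact h (T.prod T') 1 1 _ _ (algTriv_fst hT ha T') (algPull h2 (snd T T'))
  tfae_have 1 → 3 := by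
    intro h T T' a a' hT hT' ha ha'
    have h2 : AlgTriv H T' 1 a' := by
      have := hF.moving T' a' (by rw [hT']; exact ha')
      rwa [hT'] at this
    refine h T T' _ hT hT' ?_
    exact albKernel_mul hF (i := 1) (j := 1) (by rw [dim_prod, hT, hT'])
      (homPull ha (fst T T')) (algPull h2 (snd T T'))
  tfae_have 2 → 3 := by
    intro h T T' a a' hT hT' ha ha'
    obtain ⟨J, j, p, hJ, hp, hpa⟩ := hF.jacobian T hT
    obtain ⟨J', j', p', hJ', hp', hpa'⟩ := hF.jacobian T' hT'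
    have hj : HomTriv H J J.dim (C.push j a) := by
      rw [← act_push]
      refine ha.act ?_
      have := graph_mem (C := C) j
      have e : (T.dim : ℤ) + J.dim - (1 : ℕ) = J.dim := by rw [hT]; push_cast; ring
      rw [e]; exact this
    have hj' : HomTriv H J' J'.dim (C.push j' a') := by
      rw [← act_push]
      refine ha'.act ?_
      have := graph_mem (C := C) j'
      have e : (T'.dim : ℤ) + J'.dim - (1 : ℕ) = J'.dim := by rw [hT']; push_cast; ring
      rw [e]; exact this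
    have h3 : C.ext (C.push j a) (C.push j' a') = 0 := by
      refine h (J.prod J') _ (hF.prod _ _ hJ hJ') ?_
      exact albKernel_mul hF (by rw [dim_prod]) (homPull hj (fst J J'))
        (algPull (hF.moving J' _ hj') (snd J J'))
    have h4 : C.act (tens C p p') (C.ext (C.push j a) (C.push j' a')) =
        C.ext (C.act p (C.push j a)) (C.act p' (C.push j' a')) := by
      apply act_tens_ext
      intro V f c
      exact ch_comm C _ _
    have h5 : C.act p (C.push j a) = a := hpa a ha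
    have h6 : C.act p' (C.push j' a') = a' := hpa' a' ha'
    rw [h3, C.act_map_zero, h5, h6] at h4
    exact h4.symm
  tfae_finish

/-- The kernel depends only on cycles modulo algebraic equivalence. -/
theorem griffiths (hF : Facts H Ab) (h : ExtZero H) {T X : 𝒱.Obj} {Γ Γ' : C.A (T.prod X)}
    {a : C.A T} (hT : T.dim = 1) {j : ℕ} (hΓ : AlgTriv H (T.prod X) j (Γ - Γ'))
    (ha : HomTriv H T 1 a) : C.act Γ a = C.act Γ' a := by
  rw [← sub_eq_zero, ← C.act_sub, C.act_apply, mul_alg_zero h hΓ (algTriv_fst hT ha X), map_zero]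

theorem final (hF : Facts H Ab) :
    (∀ (X : 𝒱.Obj) (z : C.A X), [AlbKernel H X z,
      ∃ (T : 𝒱.Obj) (Γ : C.A (T.prod X)) (a : C.A T), T.dim = 1 ∧ HomTriv H (T.prod X) X.dim Γ ∧
        HomTriv H T 1 a ∧ z = C.act Γ a,
      ∃ (Y : 𝒱.Obj) (h : Y ⟶ X) (x y : C.A Y), Y.dim = 3 ∧ HomTriv H Y 2 x ∧
        AlgTriv H Y 1 y ∧ z = C.down h (C.mul x y)].TFAE) ∧
    [∀ (X : 𝒱.Obj) (z : C.A X), AlbKernel H X z → z = 0,
      ∀ (S : 𝒱.Obj) (z : C.A S), S.dim = 2 → AlbKernel H S z → z = 0,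
      ∀ (Y : 𝒱.Obj) (x y : C.A Y), Y.dim = 3 → HomTriv H Y 2 x → AlgTriv H Y 1 y →
        C.mul x y = 0,
      ∀ (X : 𝒱.Obj) (i j : ℕ) (x y : C.A X), i + j = X.dim → HomTriv H X i x →
        AlgTriv H X j y → C.mul x y = 0].TFAE ∧
    [∀ (T T' : 𝒱.Obj) (z : C.A (T.prod T')), T.dim = 1 → T'.dim = 1 →
        AlbKernel H (T.prod T') z → z = 0,
      ∀ (A : 𝒱.Obj) (z : C.A A), Ab A → AlbKernel H A z → z = 0,
      ∀ (X : 𝒱.Obj) (i j : ℕ) (x y : C.A X), AlgTriv H X i x → AlgTriv H X j y →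
        C.mul x y = 0].TFAE ∧
    ((∀ (A : 𝒱.Obj) (z : C.A A), Ab A → AlbKernel H A z → z = 0) →
      (∀ (T X : 𝒱.Obj) (Γ Γ' : C.A (T.prod X)) (a : C.A T) (j : ℕ), T.dim = 1 →
        AlgTriv H (T.prod X) j (Γ - Γ') → HomTriv H T 1 a → C.act Γ a = C.act Γ' a) ∧
      ∀ X : 𝒱.Obj, (∀ (T : 𝒱.Obj) (Γ : C.A (T.prod X)), T.dim = 1 →
        HomTriv H (T.prod X) X.dim Γ → AlgTriv H (T.prod X) X.dim Γ) →
          ∀ z : C.A X, AlbKernel H X z → z = 0) := by
  refine ⟨fun X z => ?_, ?_, ?_, fun h => ?_⟩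
  · tfae_have 1 ↔ 2 := albKernel_iff hF X z
    tfae_have 1 ↔ 3 := threefolds hF X z
    tfae_finish
  · have h := conj_tfae hF
    tfae_have 1 ↔ 2 := h.out 0 1
    tfae_have 2 ↔ 3 := h.out 1 2
    tfae_have 2 ↔ 4 := h.out 1 4
    tfae_finish
  · have h := curves_tfae hF
    tfae_have 1 ↔ 2 := h.out 0 1
    tfae_have 2 ↔ 3 := h.out 1 3
    tfae_finish
  · have h0 : ExtZero H := ((curves_tfae hF).out 1 2).1 h
    refine ⟨fun T X Γ Γ' a j hT hΓ ha => griffiths hF h0 hT hΓ ha, fun X hX z hz => ?_⟩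
    obtain ⟨T, Γ, a, hT, hΓ, ha, rfl⟩ := doubly_of_albKernel hF hz
    have h1 := griffiths hF h0 (Γ' := 0) hT (by rw [sub_zero]; exact hX T Γ hT hΓ) ha
    rw [h1]
    exact C.act_zero a

end curves

end Pool.Agent.Q28.AL
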